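import Pool.Agent.Run7.h350.FK.Iface

/-!
# Project FK, piece INF: the case `p = ∞`
-/

set_option autoImplicit false

namespace Pool.Agent.Run7.h350.FK

open MeasureTheory Set Topology
open scoped ENNReal NNReal

namespace Inf

/-- the comparison function -/
noncomputable def Bd (C α : ℝ) (s : ℕ) (ρ : ℝ) : ℝ :=
  C * (1 + ρ ^ 2) ^ s * Real.exp (α / 2 * ρ ^ 2)

/-- its derivative -/
noncomputable def Bd' (C α : ℝ) (s : ℕ) (ρ : ℝ) : ℝ :=
  C * (s * (1 + ρ ^ 2) ^ (s - 1) * (2 * ρ)) * Real.exp (α / 2 * ρ ^ 2) +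
    C * (1 + ρ ^ 2) ^ s * (Real.exp (α / 2 * ρ ^ 2) * (α / 2 * (2 * ρ)))

lemma hasDerivAt_Bd (C α : ℝ) (s : ℕ) (ρ : ℝ) : HasDerivAt (Bd C α s) (Bd' C α s ρ) ρ := by
  have h0 : HasDerivAt (fun ρ : ℝ => ρ ^ 2) (2 * ρ) ρ := by
    simpa using hasDerivAt_pow 2 ρ
  have h1 : HasDerivAt (fun ρ : ℝ => 1 + ρ ^ 2) (2 * ρ) ρ := h0.const_add 1
  have h2 : HasDerivAt (fun ρ : ℝ => (1 + ρ ^ 2) ^ s) (s * (1 + ρ ^ 2) ^ (s - 1) * (2 * ρ)) ρ :=
    h1.fun_pow s
  have h3 : HasDerivAt (fun ρ : ℝ => Real.exp (α / 2 * ρ ^ 2))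
      (Real.exp (α / 2 * ρ ^ 2) * (α / 2 * (2 * ρ))) ρ := (h0.const_mul (α / 2)).exp
  exact (h2.const_mul C).mul h3

end Inf

open Inf in
theorem t_INF : S_ANA → S_INF := by
  intro hANA n s α M hα h hEnt hM
  obtain ⟨-, hrad, -⟩ := hANA n h hEnt
  have hM0 : 0 ≤ M := by
    have h1 := hM 0
    simp only [norm_zero, ne_eq, OfNat.ofNat_ne_zero, not_false_eq_true, zero_pow, add_zero,
      one_pow, mul_one, mul_zero, Real.exp_zero] at h1
    exact (norm_nonneg _).trans h1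
  have hdiff : ∀ w, DifferentiableAt ℂ h w := fun w => (hEnt w (mem_univ w)).differentiableAt
  have hcont : Continuous h := continuous_iff_continuousAt.2 fun w => (hdiff w).continuousAt
  obtain ⟨C₀, hC₀⟩ := (isCompact_closedBall (0 : CE n) 1).exists_bound_of_continuousOn
    hcont.continuousOn
  have hC₀0 : 0 ≤ C₀ := (norm_nonneg _).trans (hC₀ 0 (by simp))
  set C : ℝ := 2 * M / α + C₀ with hC
  have hCα : 2 * M ≤ C * α := by
    rw [hC, add_mul, div_mul_cancel₀ _ hα.ne']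
    have := mul_nonneg hC₀0 hα.le
    linarith
  have hCC₀ : C₀ ≤ C := by
    have : 0 ≤ 2 * M / α := by positivity
    linarith
  have hC0 : 0 ≤ C := hC₀0.trans hCC₀
  have hge : ∀ ρ : ℝ, C₀ ≤ Bd C α s ρ := by
    intro ρ
    unfold Bd
    have h1 : (1 : ℝ) ≤ (1 + ρ ^ 2) ^ s := one_le_pow₀ (by nlinarith [sq_nonneg ρ])
    have h2 : 1 ≤ Real.exp (α / 2 * ρ ^ 2) := Real.one_le_exp (by positivity)
    calc C₀ ≤ C := hCC₀
      _ = C * 1 * 1 := by ring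
      _ ≤ C * (1 + ρ ^ 2) ^ s * Real.exp (α / 2 * ρ ^ 2) := by gcongr
  refine ⟨C, fun z => ?_⟩
  show ‖h z‖ ≤ Bd C α s ‖z‖
  rcases le_or_gt ‖z‖ 1 with hz | hz
  · exact (hC₀ z (by simpa using hz)).trans (hge _)
  · have hz0 : 0 < ‖z‖ := by linarith
    set ζ : CE n := (‖z‖⁻¹ : ℝ) • z with hζ
    have hζ1 : ‖ζ‖ = 1 := by
      rw [hζ, norm_smul, norm_inv, norm_norm, inv_mul_cancel₀ hz0.ne']
    have hderiv : ∀ ρ : ℝ, HasDerivAt (fun ρ : ℝ => h (ρ • ζ)) (fderiv ℂ h (ρ • ζ) ζ) ρ := by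
      intro ρ
      have h1 : HasFDerivAt h ((fderiv ℂ h (ρ • ζ)).restrictScalars ℝ) (ρ • ζ) :=
        (hdiff (ρ • ζ)).hasFDerivAt.restrictScalars ℝ
      have h2 : HasDerivAt (fun ρ : ℝ => ρ • ζ) ζ ρ := by
        simpa using (hasDerivAt_id ρ).smul_const ζ
      exact h1.comp_hasDerivAt ρ h2
    have hmain := image_norm_le_of_norm_deriv_right_le_deriv_boundary
      (f := fun ρ : ℝ => h (ρ • ζ)) (f' := fun ρ => fderiv ℂ h (ρ • ζ) ζ) (a := 1) (b := ‖z‖)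
      (B := Bd C α s) (B' := Bd' C α s)
      (fun ρ _ => (hderiv ρ).continuousAt.continuousWithinAt)
      (fun ρ _ => (hderiv ρ).hasDerivWithinAt)
      (by
        have h1 : ‖h ((1 : ℝ) • ζ)‖ ≤ C₀ := by
          rw [one_smul]
          exact hC₀ ζ (by simp [hζ1])
        exact h1.trans (hge 1))
      (hasDerivAt_Bd C α s)
      (by
        intro ρ hρ
        have hρ1 : 1 ≤ ρ := hρ.1
        have hρ0 : 0 < ρ := by linarith
        have h1 := hM (ρ • ζ)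
        rw [hrad, norm_smul, hζ1, mul_one, Real.norm_eq_abs, abs_of_pos hρ0] at h1
        have h2 : fderiv ℂ h (ρ • ζ) (ρ • ζ) = ρ • fderiv ℂ h (ρ • ζ) ζ :=
          ((fderiv ℂ h (ρ • ζ)).restrictScalars ℝ).map_smul ρ ζ
        rw [h2, norm_smul, Real.norm_eq_abs, abs_of_pos hρ0] at h1
        set E : ℝ := Real.exp (α / 2 * ρ ^ 2) with hE
        have hE0 : 0 < E := Real.exp_pos _
        have hq0 : 0 < (1 + ρ ^ 2) ^ s := by positivity
        have hfirst : 0 ≤ C * (s * (1 + ρ ^ 2) ^ (s - 1) * (2 * ρ)) * E := by positivity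
        have hgoal : ‖fderiv ℂ h (ρ • ζ) ζ‖ ≤ C * (1 + ρ ^ 2) ^ s * (E * (α / 2 * (2 * ρ))) := by
          have h3 : ρ * ‖fderiv ℂ h (ρ • ζ) ζ‖ ≤
              ρ * (C * (1 + ρ ^ 2) ^ s * (E * (α / 2 * (2 * ρ)))) := by
            refine h1.trans ?_
            have h4 : M * (1 + ρ ^ 2) ≤ C * α * ρ ^ 2 := by
              have h5 : (1 + ρ ^ 2) ≤ 2 * ρ ^ 2 := by nlinarith
              calc M * (1 + ρ ^ 2) ≤ M * (2 * ρ ^ 2) := mul_le_mul_of_nonneg_left h5 hM0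
                _ = 2 * M * ρ ^ 2 := by ring
                _ ≤ C * α * ρ ^ 2 := mul_le_mul_of_nonneg_right hCα (sq_nonneg ρ)
            calc M * (1 + ρ ^ 2) ^ (s + 1) * E = (M * (1 + ρ ^ 2)) * ((1 + ρ ^ 2) ^ s * E) := by
                  ring
              _ ≤ (C * α * ρ ^ 2) * ((1 + ρ ^ 2) ^ s * E) :=
                  mul_le_mul_of_nonneg_right h4 (mul_pos hq0 hE0).le
              _ = ρ * (C * (1 + ρ ^ 2) ^ s * (E * (α / 2 * (2 * ρ)))) := by ring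
          exact le_of_mul_le_mul_left h3 hρ0
        unfold Bd'
        linarith)
    have h1 := hmain (right_mem_Icc.2 hz.le)
    have h2 : ‖z‖ • ζ = z := by
      rw [hζ, smul_smul, mul_inv_cancel₀ hz0.ne', one_smul]
    simp only [h2] at h1
    exact h1

end Pool.Agent.Run7.h350.FK
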